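import Mathlib

namespace Pool.Agent.Results.MP_dbbe21_pr.RankThree
open Matrix Finset

variable {N : ℕ}

/-- marginal kernel: symmetric with all eigenvalues in `[0,1]` -/
def Marg (K : Matrix (Fin N) (Fin N) ℝ) : Prop := K.PosSemidef ∧ (1 - K).PosSemidef

/-- principal minor `det K_S` -/
noncomputable def minor (K : Matrix (Fin N) (Fin N) ℝ) (S : Finset (Fin N)) : ℝ :=
  (K.submatrix (↑) (↑) : Matrix S S ℝ).det

/-- `Pr[X = S]`, by inclusion-exclusion from `Pr[T ⊆ X] = det K_T` -/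
noncomputable def prob (K : Matrix (Fin N) (Fin N) ℝ) (S : Finset (Fin N)) : ℝ :=
  ∑ T ∈ univ.filter (S ⊆ ·), (-1) ^ (T \ S).card * minor K T

/-- likelihood of the training sequence `X` -/
noncomputable def lik (K : Matrix (Fin N) (Fin N) ℝ) (X : List (Finset (Fin N))) : ℝ :=
  (X.map (prob K)).prod

lemma sum3 (f : Finset (Fin 3) → ℝ) :
    ∑ T, f T = f ∅ + f {0} + f {1} + f {2} + f {0, 1} + f {0, 2} + f {1, 2} + f {0, 1, 2} := by
  rw [show (univ : Finset (Finset (Fin 3))) = {∅, {0}, {1}, {2}, {0, 1}, {0, 2}, {1, 2}, {0, 1, 2}}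
    by decide]
  repeat rw [sum_insert (by decide)]
  rw [sum_singleton]; ring

def X : List (Finset (Fin 3)) := List.replicate 10 ∅ ++ [{0}, {1}, {2}, {0, 1}, {0, 2}, {1, 2},
  {0, 1}, {0, 2}, {1, 2}]

lemma ev (K : Matrix (Fin 3) (Fin 3) ℝ) :
    prob K ∅ = (1 - K).det ∧
    prob K {0} = K 0 0 - (K 0 0 * K 1 1 - K 0 1 * K 1 0) - (K 0 0 * K 2 2 - K 0 2 * K 2 0) + K.det ∧
    prob K {1} = K 1 1 - (K 0 0 * K 1 1 - K 0 1 * K 1 0) - (K 1 1 * K 2 2 - K 1 2 * K 2 1) + K.det ∧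
    prob K {2} = K 2 2 - (K 0 0 * K 2 2 - K 0 2 * K 2 0) - (K 1 1 * K 2 2 - K 1 2 * K 2 1) + K.det ∧
    prob K {0, 1} = K 0 0 * K 1 1 - K 0 1 * K 1 0 - K.det ∧
    prob K {0, 2} = K 0 0 * K 2 2 - K 0 2 * K 2 0 - K.det ∧
    prob K {1, 2} = K 1 1 * K 2 2 - K 1 2 * K 2 1 - K.det := by
  simp only [prob, sum_filter, sum3, minor, ← det_piecewise_one_eq_submatrix_det, det_fin_three]
  simp +decide [Finset.piecewise, Matrix.row]
  refine ⟨?_, ?_, ?_, ?_, ?_, ?_, ?_⟩ <;> ring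

lemma lik_eq (K : Matrix (Fin 3) (Fin 3) ℝ) : lik K X = prob K ∅ ^ 10 *
    (prob K {0} * prob K {1} * prob K {2}) * (prob K {0, 1} * prob K {0, 2} * prob K {1, 2}) ^ 2 := by
  simp [lik, X]; ring

lemma am3 {a b c : ℝ} (ha : 0 ≤ a) (hb : 0 ≤ b) (hc : 0 ≤ c) : 27 * (a * b * c) ≤ (a + b + c) ^ 3 := by
  nlinarith [mul_nonneg (add_nonneg ha hb) (sq_nonneg (a - b)), mul_nonneg hc (sq_nonneg (a - b)),
    mul_nonneg (add_nonneg hb hc) (sq_nonneg (b - c)), mul_nonneg ha (sq_nonneg (b - c)),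
    mul_nonneg (add_nonneg ha hc) (sq_nonneg (a - c)), mul_nonneg hb (sq_nonneg (a - c))]

lemma sines {a b c x y z : ℝ} (ha : 0 ≤ a) (hb : 0 ≤ b) (hc : 0 ≤ c) (h1 : 0 ≤ a * b - x ^ 2)
    (h2 : 0 ≤ a * c - y ^ 2) (h3 : 0 ≤ b * c - z ^ 2)
    (h : a * b * c + 2 * (x * y * z) = c * x ^ 2 + b * y ^ 2 + a * z ^ 2) :
    a * b * c * ((a * b - x ^ 2) * (a * c - y ^ 2) * (b * c - z ^ 2)) ≤
      27 / 64 * (a * b * c) ^ 3 := by
  have e1 := am3 (mul_nonneg hc h1) (mul_nonneg hb h2) (mul_nonneg ha h3)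
  have e2 := am3 (mul_nonneg hc (sq_nonneg x)) (mul_nonneg hb (sq_nonneg y))
    (mul_nonneg ha (sq_nonneg z))
  have s0 := add_nonneg (add_nonneg (mul_nonneg hc h1) (mul_nonneg hb h2)) (mul_nonneg ha h3)
  have A0 : 0 ≤ a * b * c := by positivity
  have U0 : 0 ≤ c * x ^ 2 + b * y ^ 2 + a * z ^ 2 := by positivity
  rw [show c * x ^ 2 * (b * y ^ 2) * (a * z ^ 2) = a * b * c * (x * y * z) ^ 2 by ring] at e2
  rw [show c * (a * b - x ^ 2) + b * (a * c - y ^ 2) + a * (b * c - z ^ 2) =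
    3 * (a * b * c) - (c * x ^ 2 + b * y ^ 2 + a * z ^ 2) by ring] at e1 s0
  rw [show c * (a * b - x ^ 2) * (b * (a * c - y ^ 2)) * (a * (b * c - z ^ 2)) =
    a * b * c * ((a * b - x ^ 2) * (a * c - y ^ 2) * (b * c - z ^ 2)) by ring] at e1
  generalize c * x ^ 2 + b * y ^ 2 + a * z ^ 2 = U at *
  generalize a * b * c = A at *
  generalize x * y * z = t at *
  have : 3 / 4 * A ≤ U := by
    by_contra hh
    have h4 : U ^ 3 < (3 / 4 * A) ^ 3 := pow_lt_pow_left₀ (not_le.1 hh) U0 (by norm_num)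
    have h5 : (A / 8) ^ 2 ≤ (-t) ^ 2 := pow_le_pow_left₀ (by linarith) (by linarith) 2
    nlinarith [mul_le_mul_of_nonneg_left h5 A0]
  have : (3 * A - U) ^ 3 ≤ (9 / 4 * A) ^ 3 := pow_le_pow_left₀ s0 (by linarith) 3
  linarith

lemma am {p a b c u v w : ℝ} (hp : 0 ≤ p) (ha : 0 ≤ a) (hb : 0 ≤ b) (hc : 0 ≤ c) (hu : 0 ≤ u)
    (hv : 0 ≤ v) (hw : 0 ≤ w) (h : p + a + b + c + u + v + w = 1) :
    p ^ 7 * (a * b * c) ^ 3 * (u * v * w) ≤ 7 ^ 7 * 3 ^ 9 / 19 ^ 19 := by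
  have e : ∀ t : ℝ, t ≤ Real.exp (t - 1) := fun t => by linarith [Real.add_one_le_exp (t - 1)]
  have : (19 / 7 * p) ^ 7 * (19 / 3 * a * (19 / 3 * b) * (19 / 3 * c)) ^ 3 *
      (19 * u * (19 * v) * (19 * w)) ≤ Real.exp (19 / 7 * p - 1) ^ 7 * (Real.exp (19 / 3 * a - 1) *
      Real.exp (19 / 3 * b - 1) * Real.exp (19 / 3 * c - 1)) ^ 3 * (Real.exp (19 * u - 1) *
      Real.exp (19 * v - 1) * Real.exp (19 * w - 1)) := by gcongr <;> exact e _
  simp only [← Real.exp_add, ← Real.exp_nat_mul] at this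
  rw [show ((7 : ℕ) : ℝ) * (19 / 7 * p - 1) + (3 : ℕ) * (19 / 3 * a - 1 + (19 / 3 * b - 1) +
    (19 / 3 * c - 1)) + (19 * u - 1 + (19 * v - 1) + (19 * w - 1)) = 0 by
      push_cast; linarith, Real.exp_zero] at this
  linarith

lemma m {M : Matrix (Fin 3) (Fin 3) ℝ} (h : M.PosSemidef) (i j : Fin 3) :
    0 ≤ M i i * M j j - M i j * M j i := by
  have := (h.submatrix ![i, j]).det_nonneg
  rwa [det_fin_two] at this

lemma low {K : Matrix (Fin 3) (Fin 3) ℝ} (hK : Marg K) (hd : K.det = 0) :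
    lik K X ≤ 27 / 64 * (7 ^ 7 * 3 ^ 9 / 19 ^ 19) := by
  have s01 : K 1 0 = K 0 1 := by simpa using hK.1.1.apply 0 1
  have s02 : K 2 0 = K 0 2 := by simpa using hK.1.1.apply 0 2
  have s12 : K 2 1 = K 1 2 := by simpa using hK.1.1.apply 1 2
  have d := fun i => hK.1.diag_nonneg (i := i)
  have qf := fun v => hK.2.dotProduct_mulVec_nonneg v
  have q0 := qf ![0, K 0 2, -K 0 1]
  have q1 := qf ![K 1 2, 0, -K 0 1]
  have q2 := qf ![K 1 2, -K 0 2, 0]
  have n0 := mul_nonneg (d 0) (m hK.2 1 2)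
  have n1 := mul_nonneg (d 1) (m hK.2 0 2)
  have n2 := mul_nonneg (d 2) (m hK.2 0 1)
  have u0 := m hK.1 0 1
  have u1 := m hK.1 0 2
  have u2 := m hK.1 1 2
  have p0 := hK.2.det_nonneg
  obtain ⟨e0, e1, e2, e3, e4, e5, e6⟩ := ev K
  rw [← e0] at p0
  rw [det_fin_three] at e0 hd
  rw [det_fin_three] at e1 e2 e3 e4 e5 e6
  simp [dotProduct, mulVec, Fin.sum_univ_three, s01, s02, s12] at q0 q1 q2 n0 n1 n2 e0
  simp only [s01, s02, s12] at *
  rw [lik_eq]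
  have a1 : 0 ≤ prob K {0} := by linarith
  have a2 : 0 ≤ prob K {1} := by linarith
  have a3 : 0 ≤ prob K {2} := by linarith
  have a4 : 0 ≤ prob K {0, 1} := by linarith
  have a5 : 0 ≤ prob K {0, 2} := by linarith
  have a6 : 0 ≤ prob K {1, 2} := by linarith
  have b := am p0 a1 a2 a3 a4 a5 a6 (by linarith)
  have j1 : prob K {0} * prob K {1} - (K 0 1 * (1 - K 2 2) + K 0 2 * K 1 2) ^ 2
      = prob K ∅ * prob K {0, 1} := by rw [e0, e1, e2, e4]; ring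
  have j2 : prob K {0} * prob K {2} - (K 0 2 * (1 - K 1 1) + K 0 1 * K 1 2) ^ 2
      = prob K ∅ * prob K {0, 2} := by rw [e0, e1, e3, e5]; ring
  have j3 : prob K {1} * prob K {2} - (K 1 2 * (1 - K 0 0) + K 0 1 * K 0 2) ^ 2
      = prob K ∅ * prob K {1, 2} := by rw [e0, e2, e3, e6]; ring
  have s := sines a1 a2 a3 (j1 ▸ mul_nonneg p0 a4) (j2 ▸ mul_nonneg p0 a5) (j3 ▸ mul_nonneg p0 a6)
    (by rw [← sub_eq_zero, ← mul_zero (prob K ∅ ^ 2), ← hd, e0, e1, e2, e3]; ring)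
  rw [j1, j2, j3] at s
  have := mul_le_mul_of_nonneg_left s (mul_nonneg (pow_nonneg p0 7)
    (mul_nonneg (mul_nonneg a4 a5) a6))
  linarith

theorem result : ∃ (k N : ℕ) (X : List (Finset (Fin N))) (K : Matrix (Fin N) (Fin N) ℝ),
    1 ≤ k ∧ (∀ S ∈ X, S.card ≤ k) ∧ Marg K ∧ (∀ K', Marg K' → lik K' X ≤ lik K X) ∧
      k < K.rank := by
  have cl : ∀ f : Matrix (Fin 3) (Fin 3) ℝ → Matrix (Fin 3) (Fin 3) ℝ, Continuous f →
      IsClosed {K | (f K).PosSemidef} := fun f hf => by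
    simp only [posSemidef_iff_dotProduct_mulVec, IsHermitian, Set.ofPred_and, Set.ofPred_forall]
    exact (isClosed_eq (by fun_prop) hf).inter
      (isClosed_iInter fun x => isClosed_le continuous_const (by fun_prop))
  have cp : IsCompact {K : Matrix (Fin 3) (Fin 3) ℝ | Marg K} := by
    refine (isCompact_univ_pi fun _ => isCompact_univ_pi fun _ =>
      isCompact_Icc (a := (-1 : ℝ)) (b := 1)).of_isClosed_subset
      ((cl id continuous_id).inter (cl (1 - ·) (by fun_prop))) fun (K : Matrix _ _ ℝ) hK i _ j _ => ?_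
    have s : K j i = K i j := by simpa using hK.1.1.apply i j
    have h := m hK.1 i j
    have o : ∀ i, 0 ≤ 1 - K i i := fun i =>
      (hK.2.diag_nonneg (i := i)).trans_eq (congrArg (· - K i i) (one_apply_eq i))
    have a := o i
    have b := o j
    have c := hK.1.diag_nonneg (i := i)
    rw [s] at h
    exact abs_le.1 (abs_le_one_iff_mul_self_le_one.2 (by nlinarith))
  have h0 : Marg (diagonal fun _ : Fin 3 => (1 / 4 : ℝ)) := by
    refine ⟨PosSemidef.diagonal fun _ => by norm_num, ?_⟩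
    rw [← diagonal_one, diagonal_sub]
    exact PosSemidef.diagonal fun _ => by norm_num
  obtain ⟨K, hK, hm⟩ := cp.exists_isMaxOn ⟨_, h0⟩ (f := fun K => lik K X) (by
    have := fun K => ev K
    simp only [lik_eq, this]
    fun_prop)
  refine ⟨2, 3, X, K, by norm_num, by decide, hK, fun K' h => hm h, ?_⟩
  rw [rank_of_det_ne_zero (A := K) fun hd => ?_]
  · simp
  have := (hm h0).trans (low hK hd)
  obtain ⟨e0, e1, e2, e3, e4, e5, e6⟩ := ev (diagonal fun _ : Fin 3 => (1 / 4 : ℝ))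
  simp only [lik_eq, e0, e1, e2, e3, e4, e5, e6, det_fin_three] at this
  norm_num [diagonal, Fin.ext_iff] at this

end Pool.Agent.Results.MP_dbbe21_pr.RankThree
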